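import Pool.Agent.X155.CSemi2

/-!
# MP_5a7388_gt (Q1): a Hausdorff topological semilattice that is `c`-complete but not `s`-complete
-/

set_option autoImplicit false

open Filter Topology

namespace Pool.Agent.Results.MP_5a7388_gt.CCompleteNotSComplete

open Pool.Agent.X155.CSemi

/-- `↓A` -/
def Down {X : Type} [SemilatticeInf X] (A : Set X) : Set X := {x | ∃ a ∈ A, x ≤ a}

/-- `↑A` -/
def Up {X : Type} [SemilatticeInf X] (A : Set X) : Set X := {x | ∃ a ∈ A, a ≤ x}

/-- `s`-completeness. The semilattice operation is `x ⊓ y` and `x ≤ y` means `x ⊓ y = x`. -/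
def SComplete (X : Type) [SemilatticeInf X] [TopologicalSpace X] : Prop :=
  (∀ S : Set X, S.Nonempty → (∀ x ∈ S, ∀ y ∈ S, x ⊓ y ∈ S) →
    ∃ i, IsGLB S i ∧ i ∈ closure (Up S)) ∧
  (∀ C : Set X, C.Nonempty → IsChain (· ≤ ·) C → ∃ s, IsLUB C s ∧ s ∈ closure (Down C))

/-- `c`-completeness. -/
def CComplete (X : Type) [SemilatticeInf X] [TopologicalSpace X] : Prop :=
  ∀ F : Set X, IsClosed F → Up F = F → ∀ C : Set X, C ⊆ F → C.Nonempty → IsChain (· ≤ ·) C →
    (∃ i, IsGLB C i ∧ i ∈ F) ∧ ∃ s, IsLUB C s ∧ s ∈ closure (Down C)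

/-- There is a Hausdorff topological semilattice (a semilattice, with operation `⊓`, and a Hausdorff
topology such that `⊓` is jointly continuous) which is `c`-complete but not `s`-complete. In fact it
contains a chain `C` with an infimum that is not in the closure of `↑C`. -/
theorem result : ∃ (X : Type) (_ : SemilatticeInf X) (_ : TopologicalSpace X),
    ContinuousInf X ∧ T2Space X ∧ CComplete X ∧ ¬ SComplete X ∧
    ∃ (C : Set X) (i : X), C.Nonempty ∧ IsChain (· ≤ ·) C ∧ IsGLB C i ∧ i ∉ closure (Up C) := by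
  have hC : CComplete X := by
    intro F hF hup C hCF hne hC
    have hup' : IsUpperSet F := by
      intro x y hxy hx
      rw [← hup]
      exact ⟨x, hx, hxy⟩
    exact ⟨glb_mem F hF hup' C hCF hne hC, lub_mem C hne hC⟩
  refine ⟨X, inferInstance, inferInstance, inferInstance, inferInstance, hC, ?_, ?_⟩
  · rintro ⟨h, -⟩
    obtain ⟨i, hi, hi'⟩ := h (Set.range fun k => inc (cc k)) ⟨inc (cc 0), ⟨0, rfl⟩⟩ (by
      rintro x hx y hy
      rcases cc_chain.total hx hy with h1 | h1
      · rwa [inf_eq_left.2 h1]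
      · rwa [inf_eq_right.2 h1])
    have hib : i = ⊥ := hi.unique cc_glb
    rw [hib] at hi'
    exact cc_not_closure hi'
  · exact ⟨Set.range fun k => inc (cc k), ⊥, ⟨inc (cc 0), ⟨0, rfl⟩⟩, cc_chain, cc_glb,
      cc_not_closure⟩

end Pool.Agent.Results.MP_5a7388_gt.CCompleteNotSComplete
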